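import Mathlib

/-!
# A triangle-free graph without a balanced split catching every 4-cycle (MP_42b70f_co)
-/

namespace Pool.Agent.Results.MP_42b70f_co.NoBalancedSplit

variable {V : Type}

/-- any two different edges `uv`, `xy` of the matching `M` are joined by at most one edge of `G` -/
def SparselyJoined (G : SimpleGraph V) (M : G.Subgraph) : Prop :=
  ∀ u v x y, M.Adj u v → M.Adj x y → s(u, v) ≠ s(x, y) →
    {p : V × V | (p.1 = u ∨ p.1 = v) ∧ (p.2 = x ∨ p.2 = y) ∧ G.Adj p.1 p.2}.Subsingleton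

/-- `a b c d` is a 4-cycle of `G` (in this cyclic order) -/
def IsFourCycle (G : SimpleGraph V) (a b c d : V) : Prop :=
  G.Adj a b ∧ G.Adj b c ∧ G.Adj c d ∧ G.Adj d a ∧ a ≠ c ∧ b ≠ d

/-- the 4-cycle `a b c d` is caught by `A`: one of its opposite pairs lies inside `A` or inside the
complement of `A` -/
def Caught (A : Finset V) (a b c d : V) : Prop :=
  (a ∈ A ∧ c ∈ A) ∨ (a ∉ A ∧ c ∉ A) ∨ (b ∈ A ∧ d ∈ A) ∨ (b ∉ A ∧ d ∉ A)

/-- neighbourhoods as bit masks -/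
def nb : Fin 14 → ℕ := ![554, 9281, 1288, 4181, 9384, 273, 2186, 4688, 8740, 1409, 2582, 5184, 10376, 4370]

/-- the graph: 14 vertices, 28 edges -/
def G : SimpleGraph (Fin 14) where
  Adj i j := (nb i).testBit j = true
  symm := ⟨by decide +kernel⟩
  loopless := ⟨by decide +kernel⟩

instance : DecidableRel G.Adj := fun i j => inferInstanceAs (Decidable ((nb i).testBit j = true))

/-- the perfect matching `{0,1}, {2,3}, …, {12,13}` -/
def M : G.Subgraph where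
  verts := Set.univ
  Adj i j := i ≠ j ∧ (i : ℕ) / 2 = (j : ℕ) / 2
  adj_sub := by
    have : ∀ i j : Fin 14, i ≠ j ∧ (i : ℕ) / 2 = (j : ℕ) / 2 → (nb i).testBit j = true := by
      decide +kernel
    intro i j h
    exact this i j h
  edge_vert _ := Set.mem_univ _
  symm := ⟨fun i j h => ⟨h.1.symm, h.2.symm⟩⟩

/-- 4-cycles -/
def cyc : List (Fin 14 × Fin 14 × Fin 14 × Fin 14) := [(0, 1, 6, 3), (0, 1, 10, 9), (0, 3, 4, 5), (0, 5, 8, 9), (1, 6, 11, 10), (1, 10, 4, 13), (2, 3, 4, 10), (2, 8, 9, 10), (3, 4, 7, 6), (3, 4, 7, 12), (3, 4, 13, 12), (3, 6, 7, 12), (3, 6, 11, 12), (4, 5, 8, 13), (4, 7, 9, 10), (4, 7, 12, 13), (6, 7, 12, 11)]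

/-- number of ones among the last `k` bits of `m` -/
def pc (m : ℕ) : ℕ → ℕ
  | 0 => 0
  | k + 1 => (m.testBit k).toNat + pc m k

/-- the subset with mask `m` does not have 7 elements, or some 4-cycle is not caught -/
def test (m : ℕ) : Bool :=
  (pc m 14 != 7) ||
  cyc.any fun c => (m.testBit c.1 != m.testBit c.2.2.1) && (m.testBit c.2.1 != m.testBit c.2.2.2)

/-- all masks with the given leading bits -/
def chk : ℕ → ℕ → Bool
  | 0, m => test m
  | k + 1, m => chk k (2 * m) && chk k (2 * m + 1)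

lemma chk_sound : ∀ (k m : ℕ), chk k m = true → ∀ r < 2 ^ k, test (m * 2 ^ k + r) = true := by
  intro k
  induction k with
  | zero =>
    intro m h r hr
    have : r = 0 := by simpa using hr
    subst this
    simpa [chk] using h
  | succ k ih =>
    intro m h r hr
    rw [chk, Bool.and_eq_true] at h
    rcases Nat.lt_or_ge r (2 ^ k) with h1 | h1
    · have := ih (2 * m) h.1 r h1
      rw [show m * 2 ^ (k + 1) + r = 2 * m * 2 ^ k + r by ring]
      exact this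
    · have := ih (2 * m + 1) h.2 (r - 2 ^ k) (by rw [pow_succ] at hr; omega)
      rw [show m * 2 ^ (k + 1) + r = (2 * m + 1) * 2 ^ k + (r - 2 ^ k) by
        have h2 : m * 2 ^ (k + 1) = 2 * m * 2 ^ k := by ring
        have h3 : (2 * m + 1) * 2 ^ k = 2 * m * 2 ^ k + 2 ^ k := by ring
        omega]
      exact this

lemma chk_all : chk 14 0 = true := by decide +kernel

lemma cyc_all : (cyc.all fun c => (nb c.1).testBit c.2.1 && (nb c.2.1).testBit c.2.2.1 &&
    (nb c.2.2.1).testBit c.2.2.2 && (nb c.2.2.2).testBit c.1 && (c.1 != c.2.2.1) &&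
    (c.2.1 != c.2.2.2)) = true := by decide +kernel

lemma cyc_ok : ∀ c ∈ cyc, IsFourCycle G c.1 c.2.1 c.2.2.1 c.2.2.2 := by
  intro c hc
  have h := List.all_eq_true.1 cyc_all c hc
  simp only [Bool.and_eq_true, bne_iff_ne] at h
  obtain ⟨⟨⟨⟨⟨h1, h2⟩, h3⟩, h4⟩, h5⟩, h6⟩ := h
  exact ⟨h1, h2, h3, h4, h5, h6⟩

lemma test_mask (A : Finset (Fin 14)) : test (Nat.ofBits fun i => decide (i ∈ A)) = true := by
  have h1 := chk_sound 14 0 chk_all _ (Nat.ofBits_lt_two_pow fun i => decide (i ∈ A))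
  simpa using h1

lemma bit_mask (A : Finset (Fin 14)) (i : Fin 14) :
    (Nat.ofBits fun i => decide (i ∈ A)).testBit (i : ℕ) = decide (i ∈ A) := by
  rw [Nat.testBit_ofBits_lt _ _ i.isLt]

theorem main (A : Finset (Fin 14)) (hA : A.card = 7) :
    ∃ a b c d, IsFourCycle G a b c d ∧ ¬ Caught A a b c d := by
  have h := test_mask A
  set m := Nat.ofBits fun i => decide (i ∈ A) with hm
  have hb : ∀ i : Fin 14, m.testBit (i : ℕ) = decide (i ∈ A) := bit_mask A
  rw [test, Bool.or_eq_true] at h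
  have hpc : ∀ k, pc m k = ∑ i ∈ Finset.range k, (m.testBit i).toNat := by
    intro k
    induction k with
    | zero => rfl
    | succ k ih => rw [pc, Finset.sum_range_succ, ih, add_comm]
  have hcard : pc m 14 = 7 := by
    rw [← hA, hpc, ← Fin.sum_univ_eq_sum_range (fun i => (m.testBit i).toNat) 14]
    simp only [hb]
    have h2 : A = Finset.univ.filter (· ∈ A) := by simp
    conv_rhs => rw [h2]
    rw [Finset.card_filter]
    apply Finset.sum_congr rfl
    intro i _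
    by_cases h3 : i ∈ A <;> simp [h3]
  rcases h with h | h
  · rw [hcard] at h
    exact absurd h (by decide)
  · rw [List.any_eq_true] at h
    obtain ⟨c, hc, h⟩ := h
    refine ⟨c.1, c.2.1, c.2.2.1, c.2.2.2, cyc_ok c hc, ?_⟩
    rw [Bool.and_eq_true, bne_iff_ne, bne_iff_ne, hb, hb, hb, hb] at h
    unfold Caught
    obtain ⟨h1, h2⟩ := h
    rw [Ne, decide_eq_decide] at h1 h2
    tauto

/-- **Answer: no.** -/
theorem result : ∃ (V : Type) (_ : Fintype V) (G : SimpleGraph V) (M : G.Subgraph),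
    G.CliqueFree 3 ∧ M.IsPerfectMatching ∧ SparselyJoined G M ∧
    ∀ A : Finset V, 2 * A.card = Fintype.card V →
      ∃ a b c d, IsFourCycle G a b c d ∧ ¬ Caught A a b c d := by
  refine ⟨Fin 14, inferInstance, G, M, ?_, ?_, ?_, ?_⟩
  · intro s hs
    rw [SimpleGraph.is3Clique_iff] at hs
    obtain ⟨a, b, c, h1, h2, h3, -⟩ := hs
    have : ∀ a b c : Fin 14, ¬ (G.Adj a b ∧ G.Adj a c ∧ G.Adj b c) := by decide +kernel
    exact this a b c ⟨h1, h2, h3⟩
  · refine ⟨fun v _ => ?_, fun v => Set.mem_univ v⟩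
    have : ∀ v : Fin 14, ∃ w : Fin 14, (v ≠ w ∧ (v : ℕ) / 2 = (w : ℕ) / 2) ∧
        ∀ y : Fin 14, (v ≠ y ∧ (v : ℕ) / 2 = (y : ℕ) / 2) → y = w := by decide +kernel
    exact this v
  · intro u v x y huv hxy hne
    have key : ∀ p₁ p₂ : Fin 14, G.Adj p₁ p₂ → (p₁ : ℕ) / 2 ≠ (p₂ : ℕ) / 2 → ∀ q₁ q₂ : Fin 14,
        (q₁ : ℕ) / 2 = (p₁ : ℕ) / 2 → (q₂ : ℕ) / 2 = (p₂ : ℕ) / 2 → G.Adj q₁ q₂ →
        p₁ = q₁ ∧ p₂ = q₂ := by
      decide +kernel
    have h1 : (u : ℕ) ≠ v := fun h => huv.1 (Fin.ext h)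
    have h2 : (x : ℕ) ≠ y := fun h => hxy.1 (Fin.ext h)
    have h3 := huv.2
    have h4 := hxy.2
    have hne' : (u : ℕ) / 2 ≠ (x : ℕ) / 2 := by
      intro h5
      apply hne
      have h6 : ((u : ℕ) = x ∧ (v : ℕ) = y) ∨ ((u : ℕ) = y ∧ (v : ℕ) = x) := by omega
      rcases h6 with ⟨h6, h7⟩ | ⟨h6, h7⟩
      · rw [Fin.ext h6, Fin.ext h7]
      · rw [Fin.ext h6, Fin.ext h7, Sym2.eq_swap]
    rintro ⟨p₁, p₂⟩ ⟨hp1, hp2, hp⟩ ⟨q₁, q₂⟩ ⟨hq1, hq2, hq⟩
    simp only at hp1 hp2 hp hq1 hq2 hq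
    have e1 : (p₁ : ℕ) / 2 = (u : ℕ) / 2 := by rcases hp1 with rfl | rfl <;> omega
    have e2 : (p₂ : ℕ) / 2 = (x : ℕ) / 2 := by rcases hp2 with rfl | rfl <;> omega
    have e3 : (q₁ : ℕ) / 2 = (u : ℕ) / 2 := by rcases hq1 with rfl | rfl <;> omega
    have e4 : (q₂ : ℕ) / 2 = (x : ℕ) / 2 := by rcases hq2 with rfl | rfl <;> omega
    obtain ⟨h6, h7⟩ := key p₁ p₂ hp (by omega) q₁ q₂ (by omega) (by omega) hq
    rw [h6, h7]
  · intro A hA
    apply main
    rw [Fintype.card_fin] at hA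
    omega

end Pool.Agent.Results.MP_42b70f_co.NoBalancedSplit
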